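import Mathlib

/-!
# Nonzero digits of `n` and of `n ^ 2`: the conjectured bound fails for every prime `p`

`(4 X ^ 4 + 4 X ^ 3 - 2 X ^ 2 + 2 X + 1) ^ 2 = 16 X ^ 8 + 32 X ^ 7 + 28 X ^ 4 + 4 X + 1`.
For `X = p ^ t` the number on the right has a bounded number of nonzero digits in base `p`, but the
negative coefficient on the left produces a block of about `t` digits `p - 1`.
-/

set_option autoImplicit false

namespace Pool.Agent.Results.MP_dd1d4c_nt.FiveTermSquares

/-- `N b m` is the number of nonzero digits of `m` in base `b`. -/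
def N (b m : ℕ) : ℕ := (Nat.digits b m).countP (fun d => d ≠ 0)

theorem N_zero (b : ℕ) : N b 0 = 0 := by simp [N]

theorem N_cons {b : ℕ} (hb : 2 ≤ b) (x y : ℕ) (hx : x < b) :
    N b (x + b * y) = (if x ≠ 0 then 1 else 0) + N b y := by
  rcases eq_or_ne x 0 with h | h
  · rcases eq_or_ne y 0 with h' | h'
    · simp [h, h', N]
    · unfold N
      rw [Nat.digits_add b (by omega) x y hx (Or.inr h'), List.countP_cons]
      simp [h]
  · unfold N
    rw [Nat.digits_add b (by omega) x y hx (Or.inl h), List.countP_cons]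
    simp [h, add_comm]

theorem N_add {b : ℕ} (hb : 2 ≤ b) (k : ℕ) : ∀ A B : ℕ, A < b ^ k →
    N b (A + b ^ k * B) = N b A + N b B := by
  induction k with
  | zero =>
    intro A B hA
    have : A = 0 := by simpa using hA
    subst this
    simp [N_zero]
  | succ k ih =>
    intro A B hA
    have h1 : A % b < b := Nat.mod_lt _ (by omega)
    have h2 : A / b < b ^ k := by
      rw [Nat.div_lt_iff_lt_mul (by omega)]
      calc A < b ^ (k + 1) := hA
        _ = b ^ k * b := pow_succ _ _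
    have h3 : A + b ^ (k + 1) * B = A % b + b * (A / b + b ^ k * B) := by
      have := Nat.mod_add_div A b
      calc A + b ^ (k + 1) * B = (A % b + b * (A / b)) + b ^ (k + 1) * B := by rw [this]
        _ = _ := by ring
    have h4 : N b A = (if A % b ≠ 0 then 1 else 0) + N b (A / b) := by
      conv_lhs => rw [← Nat.mod_add_div A b]
      exact N_cons hb _ _ h1
    rw [h3, N_cons hb _ _ h1, ih _ _ h2, h4]
    ring

theorem N_pow_sub_one {b : ℕ} (hb : 2 ≤ b) (k : ℕ) : N b (b ^ k - 1) = k := by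
  induction k with
  | zero => simp [N_zero]
  | succ k ih =>
    have h1 : 1 ≤ b ^ k := Nat.one_le_pow _ _ (by omega)
    have h2 : b ^ (k + 1) - 1 = (b - 1) + b * (b ^ k - 1) := by
      have : b * b ^ k = b * (b ^ k - 1) + b := by
        rw [← Nat.mul_succ]
        congr 1
        omega
      rw [pow_succ']
      omega
    rw [h2, N_cons hb _ _ (by omega), ih, if_pos (by omega), add_comm]

theorem N_pow_sub_two {b : ℕ} (hb : 2 ≤ b) (k : ℕ) : k ≤ N b (b ^ (k + 1) - 2) := by
  have h1 : 1 ≤ b ^ k := Nat.one_le_pow _ _ (by omega)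
  have h2 : b ^ (k + 1) - 2 = (b - 2) + b * (b ^ k - 1) := by
    have : b * b ^ k = b * (b ^ k - 1) + b := by
      rw [← Nat.mul_succ]
      congr 1
      omega
    rw [pow_succ']
    omega
  rw [h2, N_cons hb _ _ (by omega), N_pow_sub_one hb]
  omega

/-- the number of nonzero digits of the five coefficients -/
theorem N_coeff {b : ℕ} (hb : 2 ≤ b) :
    N b 1 + (N b 4 + (N b 28 + (N b 32 + N b 16))) ≤ 11 ∧
      (33 ≤ b → N b 1 + (N b 4 + (N b 28 + (N b 32 + N b 16))) = 5) := by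
  rcases Nat.lt_or_ge b 33 with h | h
  · refine ⟨?_, fun h' => by omega⟩
    unfold N
    interval_cases b <;> simp
  · have h1 : ∀ c : ℕ, c ≠ 0 → c < 33 → N b c = 1 := by
      intro c hc hc'
      unfold N
      rw [Nat.digits_of_lt b c hc (by omega)]
      simp [hc]
    rw [h1 1, h1 4, h1 28, h1 32, h1 16] <;> norm_num

/-- the numbers of the counterexample -/
def num (b t : ℕ) : ℕ := 4 * (b ^ t) ^ 4 + (4 * b ^ t - 2) * (b ^ t) ^ 2 + 2 * b ^ t + 1

theorem num_spec {b : ℕ} (hb : 2 ≤ b) (t : ℕ) (ht : 6 ≤ t) :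
    N b (num b t ^ 2) = N b 1 + (N b 4 + (N b 28 + (N b 32 + N b 16))) ∧ t - 1 ≤ N b (num b t) := by
  set X := b ^ t with hX
  have hX64 : 64 ≤ X := by
    calc 64 = 2 ^ 6 := by norm_num
      _ ≤ b ^ 6 := Nat.pow_le_pow_left hb 6
      _ ≤ b ^ t := Nat.pow_le_pow_right (by omega) ht
  have hX3 : b ^ (3 * t) = X ^ 3 := by rw [hX, ← pow_mul, mul_comm]
  have hX2 : b ^ (2 * t) = X ^ 2 := by rw [hX, ← pow_mul, mul_comm]
  have hXX3 : X ≤ X ^ 3 := Nat.le_self_pow (by norm_num) X
  constructor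
  · have e : num b t ^ 2 = 1 + b ^ t * (4 + b ^ (3 * t) * (28 + b ^ (3 * t) * (32 + b ^ t * 16))) := by
      rw [hX3, ← hX]
      unfold num
      rw [← hX]
      zify [show 2 ≤ 4 * X by omega]
      ring
    rw [e, N_add hb t 1 _ (by omega), N_add hb (3 * t) 4 _ (by omega),
      N_add hb (3 * t) 28 _ (by omega), N_add hb t 32 _ (by omega)]
  · have hXX : 4 * X ≤ X ^ 2 := by nlinarith
    have e : num b t = (1 + 2 * X) + b ^ (2 * t) * ((4 * X - 2) + b ^ (2 * t) * 4) := by
      rw [hX2]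
      unfold num
      rw [← hX]
      zify [show 2 ≤ 4 * X by omega]
      ring
    have e2 : 4 * X - 2 = (X - 2) + b ^ t * 3 := by
      rw [← hX]
      omega
    rw [e, N_add hb (2 * t) _ _ (by omega), N_add hb (2 * t) _ _ (by omega), e2,
      N_add hb t _ _ (by omega)]
    obtain ⟨k, rfl⟩ : ∃ k, t = k + 1 := ⟨t - 1, by omega⟩
    have := N_pow_sub_two hb k
    rw [← hX] at this
    omega

/-- For every prime `p` the implication of the question fails. More precisely, for every base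
`b ≥ 2` the numbers `n` for which `n ^ 2` has at most `11` nonzero digits (exactly `5` if `b ≥ 33`)
have unboundedly many nonzero digits. -/
theorem result :
    (∀ p : ℕ, p.Prime →
      ¬ ∀ s : ℕ, 1 ≤ s → ∃ l : ℕ, ∀ n : ℕ, N p (n ^ 2) ≤ s → N p n ≤ l) ∧
    (∀ b : ℕ, 2 ≤ b → ∀ l : ℕ, ∃ n : ℕ,
      N b (n ^ 2) ≤ 11 ∧ (33 ≤ b → N b (n ^ 2) = 5) ∧ l < N b n) := by
  have key : ∀ b : ℕ, 2 ≤ b → ∀ l : ℕ, ∃ n : ℕ,
      N b (n ^ 2) ≤ 11 ∧ (33 ≤ b → N b (n ^ 2) = 5) ∧ l < N b n := by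
    intro b hb l
    obtain ⟨h1, h2⟩ := num_spec hb (l + 6) (by omega)
    refine ⟨num b (l + 6), ?_, fun h => ?_, by omega⟩
    · rw [h1]
      exact (N_coeff hb).1
    · rw [h1]
      exact (N_coeff hb).2 h
  refine ⟨fun p hp h => ?_, key⟩
  obtain ⟨l, hl⟩ := h 11 (by norm_num)
  obtain ⟨n, h1, _, h3⟩ := key p hp.two_le l
  exact absurd (hl n h1) (by omega)

end Pool.Agent.Results.MP_dd1d4c_nt.FiveTermSquares
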